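import Pool.Agent.Helper84.BT.Goals

/-!
# Project BT (MP_57df85_nt): packet CB
-/

set_option autoImplicit false

namespace Pool.Agent.Helper32.BT.CB

open PowerSeries
open Pool.Agent.Helper84.BT

lemma ode (a : ℤ) : la a * derivative ℤ (Bs a) = C (-2 * a) * Bs a := by
  ext n
  rw [la, add_mul, one_mul, mul_assoc, map_add, coeff_C_mul, coeff_C_mul, coeff_derivative]
  unfold Bs
  rcases n with _ | n
  · rw [coeff_zero_X_mul, coeff_mk, coeff_mk]
    simp [Nat.centralBinom_eq_two_mul_choose]
  · rw [coeff_succ_X_mul, coeff_derivative, coeff_mk, coeff_mk]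
    have h := Nat.succ_mul_centralBinom_succ (n + 1)
    have h' : ((n : ℤ) + 2) * (Nat.centralBinom (n + 2) : ℤ) =
        2 * (2 * (n + 1) + 1) * (Nat.centralBinom (n + 1) : ℤ) := by
      have h2 : (((n + 1 + 1) * Nat.centralBinom (n + 1 + 1) : ℕ) : ℤ) =
          ((2 * (2 * (n + 1) + 1) * Nat.centralBinom (n + 1) : ℕ) : ℤ) := by exact_mod_cast h
      push_cast at h2
      linarith
    push_cast
    have e : (Nat.centralBinom (n + 1 + 1) : ℤ) * (-a) ^ (n + 1 + 1) * (n + 1 + 1) =
        ((n : ℤ) + 2) * (Nat.centralBinom (n + 2) : ℤ) * (-a) ^ (n + 2) := by ring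
    rw [e, h']
    ring

theorem t : Pool.Agent.Helper84.BT.S_CB := by
  intro a
  have h0 : derivative ℤ (la a) = C (4 * a) := by
    unfold la
    rw [map_add, Derivation.leibniz, derivative_X, derivative_C]
    simp
  apply derivative.ext
  · rw [Derivation.leibniz, pow_two, Derivation.leibniz, h0]
    have h1 := ode a
    simp only [smul_eq_mul]
    have h2 : (C (-2 * a) : PowerSeries ℤ) = -2 * C a := by
      rw [map_mul, map_neg]
      rfl
    have h3 : (C (4 * a) : PowerSeries ℤ) = 4 * C a := by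
      rw [map_mul]
      rfl
    rw [h2] at h1
    rw [h3]
    have h4 : Bs a * Bs a * (4 * C a) + la a * (Bs a * derivative ℤ (Bs a) + Bs a * derivative ℤ (Bs a)) =
        Bs a * Bs a * (4 * C a) + 2 * Bs a * (la a * derivative ℤ (Bs a)) := by ring
    rw [h4, h1]
    have h5 : derivative ℤ (1 : PowerSeries ℤ) = 0 := Derivation.map_one_eq_zero _
    rw [h5]
    ring
  · unfold la Bs
    simp

end Pool.Agent.Helper32.BT.CB
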