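import Pool.Agent.Helper84.BT.Goals

/-!
# Project BT (MP_57df85_nt): packet RUN
-/

set_option autoImplicit false

namespace Pool.Agent.Helper32.BT.RUN

open Pool.Agent.Helper84.BT
open Pool.Agent.Helper7.BM (sg)

/-- the gap: `A ≠ B`, both squares are close to `S * S * N` -/
lemma gap (A B S N x w u : ℤ) (hB : B ^ 2 ≤ S * S * N)
    (hA : (x - 1) * (S * S * N) ≤ (x - 1) * A ^ 2 + S * S * (w - 1)) (hAw : S * w ≤ A)
    (hBu : S * u ≤ B) (hS : 0 < S) (hw : 1 ≤ w) (hu : 1 ≤ u) (hx : 1 < x) (hAB : A < B) :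
    x - 1 < S := by
  by_contra hc
  push Not at hc
  have hA0 : 0 < A := lt_of_lt_of_le (mul_pos hS (by linarith)) hAw
  have h1 : A + B ≤ B ^ 2 - A ^ 2 := by nlinarith
  have h2 : (x - 1) * (A + B) ≤ S * S * (w - 1) := by
    have h3 : (x - 1) * (A + B) ≤ (x - 1) * (B ^ 2 - A ^ 2) :=
      mul_le_mul_of_nonneg_left h1 (by linarith)
    have h4 : (x - 1) * B ^ 2 ≤ (x - 1) * (S * S * N) :=
      mul_le_mul_of_nonneg_left hB (by linarith)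
    linarith
  have h5 : S * (S * (w + u)) ≤ (x - 1) * (A + B) := by
    have h6 : S * (w + u) ≤ A + B := by linarith
    exact mul_le_mul hc h6 (by positivity) (by linarith)
  have h7 : 0 < S * S := mul_pos hS hS
  nlinarith

theorem t : Pool.Agent.Helper84.BT.S_RUN := by
  intro hCB hRSQ hRVA p q s t hp hpq ht hts hN
  by_contra hc
  push Not at hc
  obtain ⟨a1, a2, a3⟩ := hRSQ hCB s p hp
  obtain ⟨b1, b2, b3⟩ := hRSQ hCB t q (by omega)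
  have hne := hRVA s t p q ht hts (by omega) (by omega)
  rw [← hN] at b1 b2
  obtain ⟨r, rfl⟩ : ∃ r, s = t + r := ⟨s - t, by omega⟩
  rw [Nat.add_sub_cancel_left] at hne
  obtain ⟨N, hNN⟩ : ∃ N, N = sg p (2 * (t + r)) := ⟨_, rfl⟩
  rw [← hNN] at a1 a2 b1 b2
  obtain ⟨A, hA⟩ : ∃ A, A = Rr (t + r) p := ⟨_, rfl⟩
  obtain ⟨B, hB⟩ : ∃ B, B = Rr t q := ⟨_, rfl⟩
  rw [← hA] at a1 a2 a3 hne
  rw [← hB] at b1 b2 b3 hne
  have hp1 : 1 ≤ p ^ (t + r) := Nat.one_le_pow _ _ (by omega)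
  have hq1 : 1 ≤ q ^ t := Nat.one_le_pow _ _ (by omega)
  have h16 : ∀ n : ℕ, (16 : ℤ) ^ n = 4 ^ n * 4 ^ n := by
    intro n
    rw [← mul_pow]
    norm_num
  have a1' : (A : ℤ) ^ 2 ≤ 4 ^ (t + r) * 4 ^ (t + r) * N := by
    rw [← h16]
    exact_mod_cast a1
  have a2' : ((p : ℤ) - 1) * (4 ^ (t + r) * 4 ^ (t + r) * N) ≤
      ((p : ℤ) - 1) * A ^ 2 + 4 ^ (t + r) * 4 ^ (t + r) * ((p : ℤ) ^ (t + r) - 1) := by
    rw [← h16]
    zify [hp1, show 1 ≤ p by omega] at a2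
    exact a2
  have a3' : (4 : ℤ) ^ (t + r) * (p : ℤ) ^ (t + r) ≤ A := by exact_mod_cast a3
  have hr : (0 : ℤ) < 4 ^ r := by positivity
  have b1' : ((4 : ℤ) ^ r * B) ^ 2 ≤ 4 ^ (t + r) * 4 ^ (t + r) * N := by
    have h1 : (B : ℤ) ^ 2 ≤ 16 ^ t * N := by exact_mod_cast b1
    have h2 : (4 : ℤ) ^ r * 4 ^ r * (B : ℤ) ^ 2 ≤ 4 ^ r * 4 ^ r * (16 ^ t * N) :=
      mul_le_mul_of_nonneg_left h1 (by positivity)
    rw [h16] at h2
    calc ((4 : ℤ) ^ r * B) ^ 2 = 4 ^ r * 4 ^ r * (B : ℤ) ^ 2 := by ring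
      _ ≤ _ := h2
      _ = _ := by ring
  have b2' : ((q : ℤ) - 1) * (4 ^ (t + r) * 4 ^ (t + r) * N) ≤
      ((q : ℤ) - 1) * (4 ^ r * B) ^ 2 + 4 ^ (t + r) * 4 ^ (t + r) * ((q : ℤ) ^ t - 1) := by
    zify [hq1, show 1 ≤ q by omega] at b2
    have h2 := mul_le_mul_of_nonneg_left b2 (show (0:ℤ) ≤ 4 ^ r * 4 ^ r by positivity)
    rw [h16] at h2
    calc ((q : ℤ) - 1) * (4 ^ (t + r) * 4 ^ (t + r) * N) =
        4 ^ r * 4 ^ r * (((q : ℤ) - 1) * (4 ^ t * 4 ^ t * N)) := by ring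
      _ ≤ _ := h2
      _ = _ := by ring
  have b3' : (4 : ℤ) ^ (t + r) * (q : ℤ) ^ t ≤ 4 ^ r * B := by
    have h1 : (4 : ℤ) ^ t * (q : ℤ) ^ t ≤ B := by exact_mod_cast b3
    have h2 := mul_le_mul_of_nonneg_left h1 hr.le
    calc (4 : ℤ) ^ (t + r) * (q : ℤ) ^ t = 4 ^ r * (4 ^ t * (q : ℤ) ^ t) := by ring
      _ ≤ _ := h2
  have hS : (0 : ℤ) < 4 ^ (t + r) := by positivity
  have hc' : (4 : ℤ) ^ (t + r) < p := by exact_mod_cast hc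
  have hpq' : (p : ℤ) < q := by exact_mod_cast hpq
  have hp1' : (1 : ℤ) ≤ (p : ℤ) ^ (t + r) := by exact_mod_cast hp1
  have hq1' : (1 : ℤ) ≤ (q : ℤ) ^ t := by exact_mod_cast hq1
  have hp2 : (2 : ℤ) ≤ p := by exact_mod_cast hp
  rcases lt_trichotomy (A : ℤ) (4 ^ r * B) with h | h | h
  · have := gap A (4 ^ r * B) (4 ^ (t + r)) N p (p ^ (t + r)) (q ^ t) b1' a2' a3' b3' hS hp1' hq1'
      (by linarith) h
    omega
  · exact hne (by exact_mod_cast h)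
  · have := gap (4 ^ r * B) A (4 ^ (t + r)) N q (q ^ t) (p ^ (t + r)) a1' b2' b3' a3' hS hq1' hp1'
      (by linarith) h
    omega

end Pool.Agent.Helper32.BT.RUN
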